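import Mathlib

set_option autoImplicit false
open MeasureTheory Metric Filter Topology
open scoped ContDiff RealInnerProductSpace

namespace Pool.Agent.Results.MP_815c6c_an.NotC1

abbrev E (d : ℕ) := EuclideanSpace ℝ (Fin d)

/-- `n × d` matrices with the Frobenius norm and inner product. -/
abbrev Mat (n d : ℕ) := EuclideanSpace ℝ (Fin n × Fin d)

/-- The gradient matrix `(∂_i h_a (x))` of a map `h`. -/
noncomputable def grad {d n : ℕ} (h : E d → E n) (x : E d) : Mat n d :=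
  WithLp.toLp 2 fun q => fderiv ℝ h x (EuclideanSpace.single q.2 1) q.1

/-- `A(ξ) = |ξ|^(p-2) ξ`. -/
noncomputable def A {n d : ℕ} (p : ℝ) (ξ : Mat n d) : Mat n d := ‖ξ‖ ^ (p - 2) • ξ

/-- `V(ξ) = |ξ|^((p-2)/2) ξ`. -/
noncomputable def V {n d : ℕ} (p : ℝ) (ξ : Mat n d) : Mat n d := ‖ξ‖ ^ ((p - 2) / 2) • ξ

/-- The `L²` mean oscillation of `f` on the ball of centre `c` and radius `r`. -/
noncomputable def osc {n d : ℕ} (f : E d → Mat n d) (c : E d) (r : ℝ) : ℝ :=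
  Real.sqrt (⨍ x in ball c r, ‖f x - ⨍ y in ball c r, f y‖ ^ 2)

noncomputable def ee {d : ℕ} (i : Fin d) : E d := EuclideanSpace.single i 1

lemma sum_coord {d : ℕ} (f : E d →L[ℝ] ℝ) (x : E d) : ∑ i, x i * f (ee i) = f x := by
  have : x = ∑ i, x i • (ee i : E d) := by
    ext j
    simp [ee, Finset.sum_apply, Pi.single_apply]
  conv_rhs => rw [this]
  simp [map_sum]

lemma sum_sq {d : ℕ} (x : E d) : ∑ i, x i * x i = ‖x‖ ^ 2 := by
  rw [EuclideanSpace.norm_sq_eq]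
  simp [sq]

lemma inner_ee {d : ℕ} (x : E d) (i : Fin d) : ⟪x, ee i⟫ = x i := by
  simp [ee, EuclideanSpace.inner_single_right]

lemma norm_ee {d : ℕ} (i : Fin d) : ‖(ee i : E d)‖ = 1 := by simp [ee]

lemma abs_coord {d : ℕ} (x : E d) (i : Fin d) : |x i| ≤ ‖x‖ := by
  simpa using PiLp.norm_apply_le x i

section scalar
variable {d : ℕ} (B : E d →L[ℝ] E d →L[ℝ] ℝ)

lemma abs_L (x : E d) (i : Fin d) : |B x (ee i)| ≤ ‖B‖ * ‖x‖ := by
  have := B.le_opNorm₂ x (ee i)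
  simpa [norm_ee] using this

lemma abs_P (x : E d) : |B x x| ≤ ‖B‖ * ‖x‖ ^ 2 := by
  have := B.le_opNorm₂ x x
  rw [sq, ← mul_assoc]
  simpa using this

lemma hasP (hs : ∀ x y, B x y = B y x) (x : E d) :
    HasFDerivAt (fun y => B y y) ((2 : ℝ) • B x) x := by
  have := B.hasFDerivAt_of_bilinear (hasFDerivAt_id x) (hasFDerivAt_id x)
  refine this.congr_fderiv ?_
  ext v
  simp [hs v x, two_mul]

lemma hasR (ε a : ℝ) (x : E d) (hx : ‖x‖ ^ 2 + ε ≠ 0) :
    HasFDerivAt (fun y : E d => (‖y‖ ^ 2 + ε) ^ a)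
      ((a * (‖x‖ ^ 2 + ε) ^ (a - 1)) • ((2 : ℝ) • innerSL ℝ x)) x := by
  have h1 : HasFDerivAt (fun y : E d => ‖y‖ ^ 2 + ε) ((2 : ℝ) • innerSL ℝ x) x := by
    have := (hasStrictFDerivAt_norm_sq x).hasFDerivAt.add_const ε
    refine this.congr_fderiv ?_
    ext v
    simp
  exact h1.rpow_const (Or.inl hx)

/-- The regularised flux. -/
noncomputable def F (σ e ε : ℝ) (i : Fin d) (x : E d) : ℝ :=
  (‖x‖ ^ 2 + ε) ^ e * B x (ee i) + σ * ((‖x‖ ^ 2 + ε) ^ (e - 1) * (x i * B x x))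

lemma contDiff_F (σ e ε : ℝ) (hε : 0 < ε) (i : Fin d) : ContDiff ℝ 1 (F B σ e ε i) := by
  have h0 : ContDiff ℝ 1 (fun x : E d => ‖x‖ ^ 2 + ε) := (contDiff_norm_sq ℝ).add contDiff_const
  have hne : ∀ x : E d, ‖x‖ ^ 2 + ε ≠ 0 := fun x => by positivity
  have h1 : ∀ a : ℝ, ContDiff ℝ 1 (fun x : E d => (‖x‖ ^ 2 + ε) ^ a) :=
    fun a => h0.rpow_const_of_ne hne
  have h2 : ContDiff ℝ 1 (fun x : E d => B x (ee i)) := (B.flip (ee i)).contDiff
  have h3 : ContDiff ℝ 1 (fun x : E d => B x x) := B.contDiff.clm_apply contDiff_id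
  have h4 : ContDiff ℝ 1 (fun x : E d => x i) := (EuclideanSpace.proj i : E d →L[ℝ] ℝ).contDiff
  exact ((h1 e).mul h2).add (contDiff_const.mul ((h1 (e - 1)).mul (h4.mul h3)))

lemma fderiv_F (hs : ∀ x y, B x y = B y x) (σ e ε : ℝ) (hε : 0 < ε) (i : Fin d) (x : E d) :
    fderiv ℝ (F B σ e ε i) x (ee i) =
      (‖x‖ ^ 2 + ε) ^ e * B (ee i) (ee i) + 2 * e * (‖x‖ ^ 2 + ε) ^ (e - 1) * (x i * B x (ee i))
      + σ * ((‖x‖ ^ 2 + ε) ^ (e - 1) * (2 * (x i * B x (ee i)) + B x x)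
        + 2 * (e - 1) * (‖x‖ ^ 2 + ε) ^ (e - 1 - 1) * B x x * (x i * x i)) := by
  have hne : ‖x‖ ^ 2 + ε ≠ 0 := by positivity
  have h2 : HasFDerivAt (fun x : E d => B x (ee i)) (B.flip (ee i)) x := (B.flip (ee i)).hasFDerivAt
  have h4 : HasFDerivAt (fun x : E d => x i) (EuclideanSpace.proj i : E d →L[ℝ] ℝ) x :=
    (EuclideanSpace.proj i : E d →L[ℝ] ℝ).hasFDerivAt
  have := ((hasR ε e x hne).mul h2).add
    (((hasR ε (e - 1) x hne).mul (h4.mul (hasP B hs x))).const_mul σ)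
  have e1 : fderiv ℝ (F B σ e ε i) x = _ := this.fderiv
  rw [e1]
  have e2 : (ee i : E d) i = 1 := by simp [ee]
  simp [inner_ee, e2]
  ring

lemma div_F (hs : ∀ x y, B x y = B y x) (ht : ∑ i, B (ee i) (ee i) = 0) (σ e ε : ℝ) (hε : 0 < ε)
    (hrel : 2 * e + σ * (2 * e + d) = 0) (x : E d) :
    ∑ i, fderiv ℝ (F B σ e ε i) x (ee i) =
      2 * σ * (1 - e) * (ε * (‖x‖ ^ 2 + ε) ^ (e - 2) * B x x) := by
  have hpos : 0 < ‖x‖ ^ 2 + ε := by positivity
  simp only [fderiv_F B hs σ e ε hε, Finset.sum_add_distrib, ← Finset.mul_sum, ht, sum_coord,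
    sum_sq, Finset.sum_const, Finset.card_univ, Fintype.card_fin, nsmul_eq_mul]
  have e1 : (‖x‖ ^ 2 + ε) ^ (e - 1) = (‖x‖ ^ 2 + ε) ^ (e - 2) * (‖x‖ ^ 2 + ε) := by
    rw [← Real.rpow_add_one hpos.ne']; congr 1; ring
  rw [show e - 1 - 1 = e - 2 by ring, e1]
  linear_combination ((‖x‖ ^ 2 + ε) ^ (e - 2) * (‖x‖ ^ 2 + ε) * B x x) * hrel

lemma abs_F (σ e ε : ℝ) (hσ : 0 ≤ σ) (he : e ≤ 0) (hε : 0 ≤ ε) (i : Fin d) (x : E d) (hx : x ≠ 0) :
    |F B σ e ε i x| ≤ (‖x‖ ^ 2) ^ e * ((1 + σ) * ‖B‖ * ‖x‖) := by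
  have hn : 0 < ‖x‖ := norm_pos_iff.mpr hx
  have hρ : 0 < ‖x‖ ^ 2 := by positivity
  have hpos : 0 < ‖x‖ ^ 2 + ε := by positivity
  have h1 : (‖x‖ ^ 2 + ε) ^ e ≤ (‖x‖ ^ 2) ^ e :=
    Real.rpow_le_rpow_of_nonpos hρ (by linarith) he
  have h2 : (‖x‖ ^ 2 + ε) ^ (e - 1) ≤ (‖x‖ ^ 2) ^ (e - 1) :=
    Real.rpow_le_rpow_of_nonpos hρ (by linarith) (by linarith)
  have h3 : (‖x‖ ^ 2) ^ (e - 1) * ‖x‖ ^ 2 = (‖x‖ ^ 2) ^ e := by
    rw [← Real.rpow_add_one hρ.ne']; congr 1; ring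
  have p1 : 0 ≤ (‖x‖ ^ 2 + ε) ^ e := by positivity
  have p2 : 0 ≤ (‖x‖ ^ 2 + ε) ^ (e - 1) := by positivity
  unfold F
  calc _ ≤ |(‖x‖ ^ 2 + ε) ^ e * B x (ee i)| + |σ * ((‖x‖ ^ 2 + ε) ^ (e - 1) * (x i * B x x))| :=
        abs_add_le _ _
    _ = (‖x‖ ^ 2 + ε) ^ e * |B x (ee i)| + σ * ((‖x‖ ^ 2 + ε) ^ (e - 1) * (|x i| * |B x x|)) := by
        simp only [abs_mul, abs_of_nonneg p1, abs_of_nonneg p2, abs_of_nonneg hσ]
    _ ≤ (‖x‖ ^ 2) ^ e * (‖B‖ * ‖x‖) + σ * ((‖x‖ ^ 2) ^ (e - 1) * (‖x‖ * (‖B‖ * ‖x‖ ^ 2))) := by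
        gcongr
        · exact abs_L B x i
        · exact abs_coord x i
        · exact abs_P B x
    _ = _ := by rw [← h3]; ring

lemma abs_D (e ε : ℝ) (he : e ≤ 0) (hε : 0 ≤ ε) (x : E d) (hx : x ≠ 0) :
    |ε * (‖x‖ ^ 2 + ε) ^ (e - 2) * B x x| ≤ (‖x‖ ^ 2) ^ e * ‖B‖ := by
  have hn : 0 < ‖x‖ := norm_pos_iff.mpr hx
  have hρ : 0 < ‖x‖ ^ 2 := by positivity
  have hpos : 0 < ‖x‖ ^ 2 + ε := by positivity
  have h1 : (‖x‖ ^ 2 + ε) ^ e ≤ (‖x‖ ^ 2) ^ e :=
    Real.rpow_le_rpow_of_nonpos hρ (by linarith) he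
  have h3 : (‖x‖ ^ 2 + ε) ^ (e - 2) * (‖x‖ ^ 2 + ε) ^ 2 = (‖x‖ ^ 2 + ε) ^ e := by
    rw [← Real.rpow_natCast (‖x‖ ^ 2 + ε) 2, ← Real.rpow_add hpos]; congr 1; push_cast; ring
  have p2 : 0 ≤ (‖x‖ ^ 2 + ε) ^ (e - 2) := by positivity
  calc _ = ε * (‖x‖ ^ 2 + ε) ^ (e - 2) * |B x x| := by
        simp only [abs_mul, abs_of_nonneg p2, abs_of_nonneg hε]
    _ ≤ (‖x‖ ^ 2 + ε) * (‖x‖ ^ 2 + ε) ^ (e - 2) * (‖B‖ * (‖x‖ ^ 2 + ε)) := by
        gcongr
        · linarith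
        · exact (abs_P B x).trans (by gcongr; linarith)
    _ = (‖x‖ ^ 2 + ε) ^ e * ‖B‖ := by rw [← h3]; ring
    _ ≤ _ := by gcongr

lemma weak_eps (hs : ∀ x y, B x y = B y x) (ht : ∑ i, B (ee i) (ee i) = 0) (σ e ε : ℝ) (hε : 0 < ε)
    (hrel : 2 * e + σ * (2 * e + d) = 0) (φ : E d → ℝ) (hφ : ContDiff ℝ 1 φ)
    (hc : HasCompactSupport φ) :
    ∫ x, (∑ i, F B σ e ε i x * fderiv ℝ φ x (ee i) +
      2 * σ * (1 - e) * (ε * (‖x‖ ^ 2 + ε) ^ (e - 2) * B x x) * φ x) = 0 := by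
  have cφ' : ∀ i, Continuous (fun x => fderiv ℝ φ x (ee i)) := fun i =>
    (hφ.continuous_fderiv (by norm_num)).clm_apply continuous_const
  have sφ' : ∀ i, HasCompactSupport (fun x => fderiv ℝ φ x (ee i)) := fun i =>
    hc.fderiv_apply ℝ (ee i)
  have cF' : ∀ i, Continuous (fun x => fderiv ℝ (F B σ e ε i) x (ee i)) := fun i =>
    ((contDiff_F B σ e ε hε i).continuous_fderiv (by norm_num)).clm_apply continuous_const
  have i1 : ∀ i, Integrable (fun x => fderiv ℝ (F B σ e ε i) x (ee i) * φ x) := fun i =>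
    ((cF' i).mul hφ.continuous).integrable_of_hasCompactSupport hc.mul_left
  have i2 : ∀ i, Integrable (fun x => F B σ e ε i x * fderiv ℝ φ x (ee i)) := fun i =>
    ((contDiff_F B σ e ε hε i).continuous.mul (cφ' i)).integrable_of_hasCompactSupport
      (sφ' i).mul_left
  have i3 : ∀ i, Integrable (fun x => F B σ e ε i x * φ x) := fun i =>
    ((contDiff_F B σ e ε hε i).continuous.mul hφ.continuous).integrable_of_hasCompactSupport
      hc.mul_left
  have ibp : ∀ i, ∫ x, (F B σ e ε i x * fderiv ℝ φ x (ee i) +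
      fderiv ℝ (F B σ e ε i) x (ee i) * φ x) = 0 := by
    intro i
    rw [integral_add (i2 i) (i1 i), integral_mul_fderiv_eq_neg_fderiv_mul_of_integrable
      (i1 i) (i2 i) (i3 i)
      (fun x _ => ((contDiff_F B σ e ε hε i).differentiable (by norm_num)) x)
      (fun x _ => (hφ.differentiable (by norm_num)) x)]
    ring
  have := integral_finsetSum (μ := volume) Finset.univ (fun i _ => (i2 i).add (i1 i))
  simp only [Pi.add_apply, ibp, Finset.sum_const_zero] at this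
  rw [← this]
  congr 1
  ext x
  rw [Finset.sum_add_distrib, ← Finset.sum_mul, div_F B hs ht σ e ε hε hrel]

lemma weak (hd : 1 ≤ d) (hs : ∀ x y, B x y = B y x) (ht : ∑ i, B (ee i) (ee i) = 0) (σ e : ℝ)
    (hσ : 0 < σ) (hrel : 2 * e + σ * (2 * e + d) = 0) (φ : E d → ℝ) (hφ : ContDiff ℝ 1 φ)
    (hc : HasCompactSupport φ) :
    Integrable (fun x => ∑ i, F B σ e 0 i x * fderiv ℝ φ x (ee i)) ∧
    ∫ x, ∑ i, F B σ e 0 i x * fderiv ℝ φ x (ee i) = 0 := by
  have hd' : (1 : ℝ) ≤ d := by exact_mod_cast hd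
  have he : e ≤ 0 := by nlinarith
  have he2 : -(2 * e) < d := by nlinarith
  have cφ' : ∀ i, Continuous (fun x => fderiv ℝ φ x (ee i)) := fun i =>
    (hφ.continuous_fderiv (by norm_num)).clm_apply continuous_const
  have sφ' : ∀ i, HasCompactSupport (fun x => fderiv ℝ φ x (ee i)) := fun i =>
    hc.fderiv_apply ℝ (ee i)
  haveI : Nontrivial (E d) := by
    apply Module.nontrivial_of_finrank_pos (R := ℝ)
    simp; omega
  have hae : ∀ᵐ x : E d, x ≠ 0 := by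
    have : (volume : Measure (E d)) {0} = 0 := measure_singleton 0
    rw [ae_iff]; simpa using this
  have hloc : LocallyIntegrable (fun x : E d => (‖x‖ ^ 2) ^ e) volume := by
    apply locallyIntegrable_of_norm_le_rpow (C := 1) (α := -(2 * e)) (by simpa using hd)
      (by simpa using he2)
    · filter_upwards with x
      rw [Real.norm_eq_abs, abs_of_nonneg (by positivity), neg_neg, one_mul,
        Real.rpow_mul (norm_nonneg x)]
      norm_cast
    · exact (by fun_prop : Measurable (fun x : E d => (‖x‖ ^ 2) ^ e)).aestronglyMeasurable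
  set ψ : E d → ℝ := fun x => ∑ i, (1 + σ) * ‖B‖ * ‖x‖ * |fderiv ℝ φ x (ee i)| +
    2 * σ * (1 - e) * ‖B‖ * |φ x| with hψ
  have cψ : Continuous ψ := by
    have := hφ.continuous
    refine (continuous_finsetSum _ (fun i _ => ?_)).add (by fun_prop)
    exact (by fun_prop : Continuous fun x : E d => (1 + σ) * ‖B‖ * ‖x‖).mul (cφ' i).abs
  have sψ : HasCompactSupport ψ := by
    apply HasCompactSupport.intro hc
    intro x hx
    have h1 : φ x = 0 := image_eq_zero_of_notMem_tsupport hx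
    have h2 : fderiv ℝ φ x = 0 := by
      by_contra h
      exact hx (support_fderiv_subset ℝ (f := φ) h)
    simp [hψ, h1, h2]
  have hbound : Integrable (fun x : E d => (‖x‖ ^ 2) ^ e * ψ x) :=
    hloc.integrable_smul_right_of_hasCompactSupport cψ sψ
  set I : ℝ → E d → ℝ := fun ε x => ∑ i, F B σ e ε i x * fderiv ℝ φ x (ee i) +
      2 * σ * (1 - e) * (ε * (‖x‖ ^ 2 + ε) ^ (e - 2) * B x x) * φ x with hI
  have hmeas : ∀ ε, AEStronglyMeasurable (I ε) volume := by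
    intro ε
    have m1 : Measurable φ := hφ.continuous.measurable
    have m2 : ∀ i, Measurable (fun x => fderiv ℝ φ x (ee i)) := fun i => (cφ' i).measurable
    have m3 : Measurable (fun x : E d => B x x) :=
      (B.continuous.clm_apply continuous_id).measurable
    have m4 : ∀ i, Measurable (fun x : E d => B x (ee i)) := fun i =>
      (B.continuous.clm_apply continuous_const).measurable
    have m5 : ∀ i, Measurable (F B σ e ε i) := fun i => by
      have := m4 i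
      unfold F
      fun_prop
    apply Measurable.aestronglyMeasurable
    exact (Finset.measurable_sum _ (fun i _ => (m5 i).mul (m2 i))).add (by fun_prop)
  have hb : ∀ ε, 0 ≤ ε → ∀ᵐ x : E d, ‖I ε x‖ ≤ (‖x‖ ^ 2) ^ e * ψ x := by
    intro ε hε
    filter_upwards [hae] with x hx
    rw [Real.norm_eq_abs]
    refine (abs_add_le _ _).trans ?_
    simp only [hψ, mul_add, Finset.mul_sum]
    apply add_le_add
    · refine (Finset.abs_sum_le_sum_abs _ _).trans (Finset.sum_le_sum fun i _ => ?_)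
      rw [abs_mul, ← mul_assoc]
      exact mul_le_mul_of_nonneg_right (abs_F B σ e ε hσ.le he hε i x hx) (abs_nonneg _)
    · have p : 0 ≤ 2 * σ * (1 - e) := by
        have : 0 ≤ 1 - e := by linarith
        positivity
      rw [abs_mul, abs_mul, abs_of_nonneg p]
      calc _ ≤ 2 * σ * (1 - e) * ((‖x‖ ^ 2) ^ e * ‖B‖) * |φ x| := by
            gcongr
            exact abs_D B e ε he hε x hx
        _ = _ := by ring
  have hI0 : I 0 = fun x => ∑ i, F B σ e 0 i x * fderiv ℝ φ x (ee i) := by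
    ext x; simp [hI]
  rw [← hI0]
  refine ⟨hbound.mono' (hmeas 0) (hb 0 le_rfl), ?_⟩
  have hlim : Tendsto (fun ε => ∫ x, I ε x) (𝓝[>] 0) (𝓝 (∫ x, I 0 x)) := by
    apply tendsto_integral_filter_of_dominated_convergence (fun x : E d => (‖x‖ ^ 2) ^ e * ψ x)
    · exact Eventually.of_forall hmeas
    · filter_upwards [self_mem_nhdsWithin] with ε hε using hb ε (le_of_lt hε)
    · exact hbound
    · filter_upwards [hae] with x hx
      have hn : 0 < ‖x‖ := norm_pos_iff.mpr hx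
      have hρ : ‖x‖ ^ 2 + 0 ≠ 0 := by positivity
      have c1 : ∀ a : ℝ, ContinuousAt (fun ε : ℝ => (‖x‖ ^ 2 + ε) ^ a) 0 := fun a =>
        (by fun_prop : ContinuousAt (fun ε : ℝ => ‖x‖ ^ 2 + ε) 0).rpow_const (Or.inl hρ)
      have : ContinuousAt (fun ε => I ε x) 0 := by
        have c2 := c1 e
        have c3 := c1 (e - 1)
        have c4 := c1 (e - 2)
        simp only [hI, F]
        refine ContinuousAt.add (tendsto_finsetSum _ (fun i _ => ?_)) ?_
        · exact ((c2.mul continuousAt_const).add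
            (continuousAt_const.mul (c3.mul continuousAt_const))).mul continuousAt_const
        · exact (continuousAt_const.mul ((continuousAt_id.mul c4).mul continuousAt_const)).mul
            continuousAt_const
      exact this.tendsto.mono_left nhdsWithin_le_nhds
  have hz : Tendsto (fun ε => ∫ x, I ε x) (𝓝[>] 0) (𝓝 0) := by
    apply tendsto_const_nhds.congr'
    filter_upwards [self_mem_nhdsWithin] with ε hε
    exact (weak_eps B hs ht σ e ε hε hrel φ hφ hc).symm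
  exact tendsto_nhds_unique hlim hz


lemma cont_w (σ : ℝ) (hσ : 0 < σ) :
    Continuous (fun x : E d => B x x * (‖x‖ ^ 2 + 0) ^ (σ - 1)) := by
  have m3 : Continuous (fun x : E d => B x x) := B.continuous.clm_apply continuous_id
  rw [continuous_iff_continuousAt]
  intro x
  by_cases hx : x = 0
  · subst hx
    have h0 : Tendsto (fun x : E d => ‖B‖ * (‖x‖ ^ 2) ^ σ) (𝓝 0) (𝓝 0) := by
      have : Continuous (fun x : E d => ‖B‖ * (‖x‖ ^ 2) ^ σ) :=
        continuous_const.mul ((by fun_prop : Continuous fun x : E d => ‖x‖ ^ 2).rpow_const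
          (fun _ => Or.inr hσ.le))
      simpa [Real.zero_rpow hσ.ne'] using this.tendsto 0
    unfold ContinuousAt
    simp only [map_zero, zero_mul]
    apply squeeze_zero_norm _ h0
    intro y
    by_cases hy : y = 0
    · subst hy
      simp
      positivity
    · have hn : 0 < ‖y‖ := norm_pos_iff.mpr hy
      have hρ : 0 < ‖y‖ ^ 2 := by positivity
      have h3 : (‖y‖ ^ 2) ^ (σ - 1) * ‖y‖ ^ 2 = (‖y‖ ^ 2) ^ σ := by
        rw [← Real.rpow_add_one hρ.ne']; congr 1; ring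
      rw [add_zero, Real.norm_eq_abs, abs_mul, abs_of_nonneg (Real.rpow_nonneg hρ.le _), ← h3]
      calc _ ≤ ‖B‖ * ‖y‖ ^ 2 * (‖y‖ ^ 2) ^ (σ - 1) := by gcongr; exact abs_P B y
        _ = _ := by ring
  · have hn : 0 < ‖x‖ := norm_pos_iff.mpr hx
    have hρ : ‖x‖ ^ 2 + 0 ≠ 0 := by positivity
    exact m3.continuousAt.mul
      ((by fun_prop : ContinuousAt (fun x : E d => ‖x‖ ^ 2 + 0) x).rpow_const (Or.inl hρ))

/-- One component of the map. -/
noncomputable def u (σ : ℝ) (x : E d) : ℝ := (‖x‖ ^ 2 + 0) ^ σ * B x x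

/-- Its derivative. -/
noncomputable def Du (σ : ℝ) (x : E d) : E d →L[ℝ] ℝ :=
  (‖x‖ ^ 2 + 0) ^ σ • ((2 : ℝ) • B x) +
    (σ * (B x x * (‖x‖ ^ 2 + 0) ^ (σ - 1))) • ((2 : ℝ) • innerSL ℝ x)

lemma has_u (hs : ∀ x y, B x y = B y x) (σ : ℝ) (hσ : 0 < σ) (x : E d) :
    HasFDerivAt (u B σ) (Du B σ x) x := by
  by_cases hx : x = 0
  · subst hx
    have h1 : (u B σ) =O[𝓝 0] fun y : E d => ‖y - 0‖ ^ 2 := by
      apply Asymptotics.IsBigO.of_bound ‖B‖
      filter_upwards [ball_mem_nhds (0 : E d) one_pos] with y hy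
      have hy1 : ‖y‖ < 1 := by simpa using hy
      have h2 : (‖y‖ ^ 2 + 0) ^ σ ≤ 1 :=
        Real.rpow_le_one (by positivity) (by nlinarith [norm_nonneg y]) hσ.le
      rw [u, Real.norm_eq_abs, abs_mul, abs_of_nonneg (by positivity)]
      calc _ ≤ 1 * (‖B‖ * ‖y‖ ^ 2) := by gcongr; exact abs_P B y
        _ = _ := by simp
    refine (h1.hasFDerivAt (by norm_num)).congr_fderiv ?_
    simp [Du]
  · have hn : 0 < ‖x‖ := norm_pos_iff.mpr hx
    have hρ : ‖x‖ ^ 2 + 0 ≠ 0 := by positivity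
    refine ((hasR 0 σ x hρ).mul (hasP B hs x)).congr_fderiv ?_
    ext v
    simp [Du]
    ring

lemma contDiff_u (hs : ∀ x y, B x y = B y x) (σ : ℝ) (hσ : 0 < σ) : ContDiff ℝ 1 (u B σ) := by
  rw [contDiff_one_iff_hasFDerivAt]
  refine ⟨Du B σ, ?_, has_u B hs σ hσ⟩
  have h1 : Continuous (fun x : E d => (‖x‖ ^ 2 + 0) ^ σ) :=
    (by fun_prop : Continuous fun x : E d => ‖x‖ ^ 2 + 0).rpow_const (fun _ => Or.inr hσ.le)
  have h2 := cont_w B σ hσ
  exact (h1.smul (B.continuous.const_smul (2 : ℝ))).add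
    ((continuous_const.mul h2).smul ((innerSL ℝ (E := E d)).continuous.const_smul (2 : ℝ)))

lemma Du_ee (σ : ℝ) (x : E d) (i : Fin d) : Du B σ x (ee i) = 2 * F B σ σ 0 i x := by
  simp [Du, F, inner_ee]
  ring

lemma F_scale (σ b : ℝ) (x : E d) (i : Fin d) :
    (‖x‖ ^ 2) ^ b * F B σ σ 0 i x = F B σ (b + σ) 0 i x := by
  by_cases hx : x = 0
  · subst hx
    simp [F]
  · have hn : 0 < ‖x‖ := norm_pos_iff.mpr hx
    have hρ : 0 < ‖x‖ ^ 2 := by positivity
    simp only [F, add_zero]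
    rw [show b + σ - 1 = b + (σ - 1) by ring, Real.rpow_add hρ, Real.rpow_add hρ]
    ring

lemma F_neg (σ e : ℝ) (x : E d) (i : Fin d) : F B σ e 0 i (-x) = - F B σ e 0 i x := by
  simp [F]
  ring

lemma sum_F_sq (σ : ℝ) (x : E d) (hx : x ≠ 0) :
    ∑ i, (F B σ σ 0 i x) ^ 2 = (‖x‖ ^ 2) ^ (2 * σ) * ∑ i, (B x (ee i)) ^ 2 +
      (2 * σ + σ ^ 2) * (‖x‖ ^ 2) ^ (2 * σ - 1) * (B x x) ^ 2 := by
  have hn : 0 < ‖x‖ := norm_pos_iff.mpr hx
  have hρ : 0 < ‖x‖ ^ 2 := by positivity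
  set T := (‖x‖ ^ 2) ^ (σ - 1) with hT
  have e1 : (‖x‖ ^ 2) ^ σ = T * ‖x‖ ^ 2 := by
    rw [hT, ← Real.rpow_add_one hρ.ne']; congr 1; ring
  have e2 : (‖x‖ ^ 2) ^ (2 * σ) = (T * ‖x‖ ^ 2) ^ 2 := by
    rw [← e1, mul_comm, Real.rpow_mul hρ.le]; norm_cast
  have e3 : (‖x‖ ^ 2) ^ (2 * σ - 1) = T ^ 2 * ‖x‖ ^ 2 := by
    rw [show 2 * σ - 1 = σ + (σ - 1) by ring, Real.rpow_add hρ, e1, ← hT]; ring
  have : ∀ i, (F B σ σ 0 i x) ^ 2 = (T * ‖x‖ ^ 2) ^ 2 * (B x (ee i)) ^ 2 +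
      2 * σ * T ^ 2 * ‖x‖ ^ 2 * B x x * (x i * B x (ee i)) + σ ^ 2 * T ^ 2 * (B x x) ^ 2 * (x i * x i) := by
    intro i
    simp only [F, add_zero, e1, ← hT]
    ring
  simp only [this, Finset.sum_add_distrib, ← Finset.mul_sum, sum_coord, sum_sq, e2, e3]
  ring

end scalar

section vector
variable {d n : ℕ} (B : Fin n → E d →L[ℝ] E d →L[ℝ] ℝ)

/-- The map `x ↦ |x|^(2σ) (B_a(x,x))_a`. -/
noncomputable def hh (σ : ℝ) (x : E d) : E n := WithLp.toLp 2 fun a => u (B a) σ x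

lemma contDiff_hh (hs : ∀ a x y, B a x y = B a y x) (σ : ℝ) (hσ : 0 < σ) :
    ContDiff ℝ 1 (hh B σ) :=
  contDiff_euclidean.mpr fun a => contDiff_u (B a) (hs a) σ hσ

lemma grad_apply (φ : E d → E n) (hφ : ContDiff ℝ 1 φ) (x : E d) (q : Fin n × Fin d) :
    grad φ x q = fderiv ℝ (fun y => φ y q.1) x (ee q.2) := by
  have h1 := (hφ.differentiable (by norm_num) x).hasFDerivAt
  have h2 := (EuclideanSpace.proj q.1 : E n →L[ℝ] ℝ).hasFDerivAt.comp x h1
  have h3 : fderiv ℝ (fun y => φ y q.1) x = _ := h2.fderiv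
  rw [h3]
  rfl

lemma grad_hh (hs : ∀ a x y, B a x y = B a y x) (σ : ℝ) (hσ : 0 < σ) (x : E d)
    (q : Fin n × Fin d) : grad (hh B σ) x q = 2 * F (B q.1) σ σ 0 q.2 x := by
  rw [grad_apply _ (contDiff_hh B hs σ hσ), ← Du_ee]
  have : fderiv ℝ (fun y => hh B σ y q.1) x = _ := (has_u (B q.1) (hs q.1) σ hσ x).fderiv
  rw [this]

lemma norm_grad (hs : ∀ a x y, B a x y = B a y x) (σ : ℝ) (hσ : 0 < σ) (c1 c2 : ℝ)
    (hc1 : 0 ≤ c1) (hc2 : 0 ≤ c2)
    (h1 : ∀ x, ∑ a, (B a x x) ^ 2 = c1 * (‖x‖ ^ 2) ^ 2)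
    (h2 : ∀ x, ∑ a, ∑ i, (B a x (ee i)) ^ 2 = c2 * ‖x‖ ^ 2) (x : E d) :
    ‖grad (hh B σ) x‖ = Real.sqrt (4 * (c2 + (2 * σ + σ ^ 2) * c1)) * (‖x‖ ^ 2) ^ (σ + 1 / 2) := by
  have hK : 0 ≤ 4 * (c2 + (2 * σ + σ ^ 2) * c1) := by positivity
  by_cases hx : x = 0
  · subst hx
    have : grad (hh B σ) 0 = 0 := by
      ext q
      rw [grad_hh B hs σ hσ]
      simp [F]
    rw [this]
    have : σ + 1 / 2 ≠ 0 := by positivity
    simp only [norm_zero, ne_eq, OfNat.ofNat_ne_zero, not_false_eq_true, zero_pow,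
      Real.zero_rpow this, mul_zero]
  · have hn : 0 < ‖x‖ := norm_pos_iff.mpr hx
    have hρ : 0 < ‖x‖ ^ 2 := by positivity
    rw [← sq_eq_sq₀ (norm_nonneg _) (by positivity), EuclideanSpace.norm_sq_eq, mul_pow,
      Real.sq_sqrt hK, Fintype.sum_prod_type]
    simp only [grad_hh B hs σ hσ, Real.norm_eq_abs, sq_abs, mul_pow, ← Finset.mul_sum,
      sum_F_sq _ σ x hx, Finset.sum_add_distrib, h1, h2]
    have e1 : ((‖x‖ ^ 2) ^ (σ + 1 / 2)) ^ 2 = (‖x‖ ^ 2) ^ (2 * σ - 1) * (‖x‖ ^ 2) ^ 2 := by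
      rw [← Real.rpow_natCast ((‖x‖ ^ 2) ^ (σ + 1 / 2)) 2, ← Real.rpow_mul hρ.le,
        ← Real.rpow_natCast (‖x‖ ^ 2) 2, ← Real.rpow_add hρ]
      congr 1; push_cast; ring
    have e2 : (‖x‖ ^ 2) ^ (2 * σ) = (‖x‖ ^ 2) ^ (2 * σ - 1) * ‖x‖ ^ 2 := by
      rw [← Real.rpow_add_one hρ.ne']; congr 1; ring
    rw [e1, e2]
    ring

end vector

lemma avg_scale {d : ℕ} (γ θ : ℝ) (hθ : 0 < θ) :
    ⨍ x in ball (0 : E d) θ, ‖x‖ ^ γ = θ ^ γ * ⨍ x in ball (0 : E d) 1, ‖x‖ ^ γ := by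
  have key : ∀ f : E d → ℝ, ∫ x in ball (0 : E d) θ, f x =
      θ ^ d * ∫ x in ball (0 : E d) 1, f (θ • x) := by
    intro f
    rw [Measure.setIntegral_comp_smul_of_pos volume f _ hθ, smul_unitBall_of_pos hθ]
    simp only [finrank_euclideanSpace, Fintype.card_fin, smul_eq_mul]
    field_simp
  have h1 := key (fun _ => 1)
  simp only [integral_const, MeasurableSet.univ, measureReal_restrict_apply, Set.univ_inter,
    smul_eq_mul, mul_one] at h1
  rw [setAverage_eq, setAverage_eq, key, h1]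
  simp only [norm_smul, Real.norm_of_nonneg hθ.le, Real.mul_rpow hθ.le (norm_nonneg _),
    integral_const_mul, smul_eq_mul]
  field_simp

lemma avg_pos {d : ℕ} (hd : 1 ≤ d) (γ : ℝ) (hγ : 0 < γ) :
    0 < ⨍ x in ball (0 : E d) 1, ‖x‖ ^ γ := by
  haveI : Nontrivial (E d) := by
    apply Module.nontrivial_of_finrank_pos (R := ℝ)
    simp; omega
  have hc : Continuous (fun x : E d => ‖x‖ ^ γ) := continuous_norm.rpow_const fun _ => Or.inr hγ.le
  rw [setAverage_eq, smul_eq_mul]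
  have hv : 0 < (volume : Measure (E d)) (ball 0 1) := measure_ball_pos _ _ one_pos
  apply mul_pos
  · exact inv_pos.mpr (ENNReal.toReal_pos hv.ne' measure_ball_lt_top.ne)
  · rw [setIntegral_pos_iff_support_of_nonneg_ae]
    · have : Function.support (fun x : E d => ‖x‖ ^ γ) ∩ ball 0 1 = ball 0 1 \ {0} := by
        ext x
        simp only [Set.mem_inter_iff, Function.mem_support, Set.mem_diff, Set.mem_singleton_iff]
        constructor
        · rintro ⟨h1, h2⟩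
          refine ⟨h2, fun h => h1 ?_⟩
          simp [h, Real.zero_rpow hγ.ne']
        · rintro ⟨h1, h2⟩
          exact ⟨(Real.rpow_pos_of_pos (norm_pos_iff.mpr h2) _).ne', h1⟩
      rw [this, measure_diff_null (measure_singleton 0)]
      exact hv
    · exact Eventually.of_forall fun x => Real.rpow_nonneg (norm_nonneg x) _
    · exact (hc.continuousOn.integrableOn_compact (isCompact_closedBall 0 1)).mono_set
        ball_subset_closedBall

lemma avg_odd {d n : ℕ} (f : E d → Mat n d) (hf : ∀ x, f (-x) = - f x) (r : ℝ) :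
    ⨍ y in ball (0 : E d) r, f y = 0 := by
  have h1 : ∫ y in ball (0 : E d) r, f y = - ∫ y in ball (0 : E d) r, f y := by
    rw [← integral_neg, ← integral_indicator measurableSet_ball,
      ← integral_indicator measurableSet_ball, ← integral_neg_eq_self]
    congr 1
    ext1 x
    by_cases hx : x ∈ ball (0 : E d) r
    · have : -x ∈ ball (0 : E d) r := by simpa using hx
      simp [Set.indicator_of_mem hx, Set.indicator_of_mem this, hf]
    · have : -x ∉ ball (0 : E d) r := by simpa using hx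
      simp [Set.indicator_of_notMem hx, Set.indicator_of_notMem this]
  have h2 : ∫ y in ball (0 : E d) r, f y = 0 := by
    have : (2 : ℝ) • ∫ y in ball (0 : E d) r, f y = 0 := by
      rw [two_smul]; nth_rewrite 1 [h1]; simp
    simpa using this
  rw [setAverage_eq, h2, smul_zero]

lemma small (γ K C δ : ℝ) (hγ : γ < 1) (hK : 0 < K) (hδ : 0 < δ) :
    ∃ θ : ℝ, 0 < θ ∧ θ < δ ∧ C * θ < K * θ ^ γ := by
  have h1 : Tendsto (fun θ : ℝ => C * θ ^ (1 - γ)) (𝓝[>] 0) (𝓝 0) := by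
    have : Continuous (fun θ : ℝ => C * θ ^ (1 - γ)) :=
      continuous_const.mul (continuous_id.rpow_const fun _ => Or.inr (by linarith))
    have h := this.tendsto 0
    rw [Real.zero_rpow (by linarith), mul_zero] at h
    exact h.mono_left nhdsWithin_le_nhds
  have h2 : ∀ᶠ θ in 𝓝[>] (0 : ℝ), C * θ ^ (1 - γ) < K := h1.eventually (gt_mem_nhds hK)
  have h3 : ∀ᶠ θ in 𝓝[>] (0 : ℝ), θ < δ := nhdsWithin_le_nhds (gt_mem_nhds hδ)
  obtain ⟨θ, ⟨a, b⟩, c⟩ := ((h2.and h3).and self_mem_nhdsWithin).exists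
  have c : 0 < θ := c
  refine ⟨θ, c, b, ?_⟩
  have : θ = θ ^ (1 - γ) * θ ^ γ := by rw [← Real.rpow_add c]; simp
  calc C * θ = C * θ ^ (1 - γ) * θ ^ γ := by rw [mul_assoc, ← this]
    _ < _ := by gcongr

lemma main {d n : ℕ} (hd : 1 ≤ d) (B : Fin n → E d →L[ℝ] E d →L[ℝ] ℝ)
    (hs : ∀ a x y, B a x y = B a y x) (ht : ∀ a, ∑ i, B a (ee i) (ee i) = 0)
    (c1 c2 : ℝ) (hc1 : 0 < c1) (hc2 : 0 ≤ c2)
    (h1 : ∀ x, ∑ a, (B a x x) ^ 2 = c1 * (‖x‖ ^ 2) ^ 2)
    (h2 : ∀ x, ∑ a, ∑ i, (B a x (ee i)) ^ 2 = c2 * ‖x‖ ^ 2)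
    (p σ : ℝ) (hp : 0 < p) (hσ : 0 < σ)
    (hrel : 2 * ((σ + 1 / 2) * (p - 2) + σ) + σ * (2 * ((σ + 1 / 2) * (p - 2) + σ) + d) = 0)
    (hγ : (σ + 1 / 2) * p < 1) :
    ∃ h : E d → E n, ContDiff ℝ 1 h ∧
      (∀ φ : E d → E n, ContDiff ℝ ∞ φ → HasCompactSupport φ →
        Integrable (fun x => ⟪A p (grad h x), grad φ x⟫) ∧
        ∫ x, ⟪A p (grad h x), grad φ x⟫ = 0) ∧
      (¬ ∃ g : E d → Mat n d, ContDiff ℝ 1 g ∧ g =ᵐ[volume] fun x => V p (grad h x)) ∧
      ¬ ∃ C : ℝ, ∀ (c : E d) (r θ : ℝ), 0 < r → 0 < θ → θ ≤ 1 →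
        osc (fun x => V p (grad h x)) c (θ * r) ≤ C * θ * osc (fun x => V p (grad h x)) c r := by
  set K := Real.sqrt (4 * (c2 + (2 * σ + σ ^ 2) * c1)) with hK
  have hKpos : 0 < K := Real.sqrt_pos.mpr (by positivity)
  have hN := norm_grad B hs σ hσ c1 c2 hc1.le hc2 h1 h2
  rw [← hK] at hN
  set γ := (σ + 1 / 2) * p with hγd
  have hγ0 : 0 < γ := by positivity
  have hV : ∀ x, ‖V p (grad (hh B σ) x)‖ = K ^ (p / 2) * ‖x‖ ^ γ := by
    intro x
    have e1 : ‖V p (grad (hh B σ) x)‖ = ‖grad (hh B σ) x‖ ^ (p / 2) := by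
      rw [V, norm_smul, Real.norm_of_nonneg (by positivity), ← Real.rpow_add_one' (norm_nonneg _)]
      · congr 1; ring
      · have : (p - 2) / 2 + 1 = p / 2 := by ring
        rw [this]; positivity
    rw [e1, hN, Real.mul_rpow hKpos.le (by positivity), ← Real.rpow_natCast ‖x‖ 2,
      ← Real.rpow_mul (norm_nonneg x), ← Real.rpow_mul (norm_nonneg x)]
    congr 2
    rw [hγd]; push_cast; ring
  have hK2 : 0 < K ^ (p / 2) := by positivity
  refine ⟨hh B σ, contDiff_hh B hs σ hσ, ?_, ?_, ?_⟩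
  · intro φ hφ hc
    have hφ1 : ContDiff ℝ 1 φ := hφ.of_le (by norm_cast)
    have e : (fun x => ⟪A p (grad (hh B σ) x), grad φ x⟫) = fun x => 2 * K ^ (p - 2) *
        ∑ a, ∑ i, F (B a) σ ((σ + 1 / 2) * (p - 2) + σ) 0 i x *
          fderiv ℝ (fun y => φ y a) x (ee i) := by
      ext x
      rw [A, real_inner_smul_left, hN, Real.mul_rpow hKpos.le (by positivity),
        ← Real.rpow_mul (by positivity), PiLp.inner_apply, Fintype.sum_prod_type]
      simp only [Finset.mul_sum, ← F_scale, grad_hh B hs σ hσ, grad_apply φ hφ1, RCLike.inner_apply,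
        conj_trivial]
      refine Finset.sum_congr rfl fun a _ => Finset.sum_congr rfl fun i _ => ?_
      ring
    have w := fun a => weak (B a) hd (hs a) (ht a) σ _ hσ hrel (fun y => φ y a)
      (contDiff_euclidean.mp hφ1 a)
      (hc.comp_left (g := fun v : E n => v a) rfl)
    rw [e]
    refine ⟨(integrable_finsetSum _ fun a _ => (w a).1).const_mul _, ?_⟩
    rw [integral_const_mul, integral_finsetSum _ fun a _ => (w a).1]
    simp only [fun a => (w a).2, Finset.sum_const_zero, mul_zero]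
  · rintro ⟨g, hg, hae⟩
    have c1 : Continuous (fun x : E d => K ^ (p / 2) * ‖x‖ ^ γ) :=
      continuous_const.mul (continuous_norm.rpow_const fun _ => Or.inr hγ0.le)
    have e : (fun x => ‖g x‖) = fun x : E d => K ^ (p / 2) * ‖x‖ ^ γ := by
      rw [← Continuous.ae_eq_iff_eq volume hg.continuous.norm c1]
      filter_upwards [hae] with x hx
      rw [hx, hV]
    have e' : ∀ x, ‖g x‖ = K ^ (p / 2) * ‖x‖ ^ γ := fun x => congrFun e x
    have g0 : g 0 = 0 := by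
      rw [← norm_eq_zero, e']; simp [Real.zero_rpow hγ0.ne']
    have hb := (hg.differentiable (by norm_num) 0).isBigO_sub
    obtain ⟨C, hC⟩ := hb.bound
    obtain ⟨δ, hδ, hδ'⟩ := Metric.eventually_nhds_iff.mp hC
    obtain ⟨θ, a, b, c⟩ := small γ _ C δ hγ hK2 hδ
    have hn : ‖θ • (ee ⟨0, hd⟩ : E d)‖ = θ := by
      rw [norm_smul, norm_ee, Real.norm_of_nonneg a.le, mul_one]
    have := hδ' (y := θ • (ee ⟨0, hd⟩ : E d)) (by rw [dist_zero_right, hn]; exact b)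
    rw [g0, sub_zero, sub_zero, e', hn] at this
    linarith
  · rintro ⟨C, hC⟩
    have hodd : ∀ x, V p (grad (hh B σ) (-x)) = - V p (grad (hh B σ) x) := by
      intro x
      have : grad (hh B σ) (-x) = - grad (hh B σ) x := by
        ext q
        simp [grad_hh B hs σ hσ, F_neg]
      rw [this]
      simp [V]
    set M := ⨍ x in ball (0 : E d) 1, ‖x‖ ^ (γ * 2) with hM
    have hMpos : 0 < M := avg_pos hd _ (by positivity)
    have hosc : ∀ θ, 0 < θ → osc (fun x => V p (grad (hh B σ) x)) 0 θ =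
        K ^ (p / 2) * Real.sqrt M * θ ^ γ := by
      intro θ hθ
      rw [osc, avg_odd _ hodd]
      have : ∀ x : E d, (‖x‖ ^ γ) ^ 2 = ‖x‖ ^ (γ * 2) := fun x => by
        rw [Real.rpow_mul (norm_nonneg x) γ 2]; norm_cast
      simp only [sub_zero, hV, mul_pow, this]
      have e2 : ⨍ x in ball (0 : E d) θ, (K ^ (p / 2)) ^ 2 * ‖x‖ ^ (γ * 2) =
          (K ^ (p / 2)) ^ 2 * ⨍ x in ball (0 : E d) θ, ‖x‖ ^ (γ * 2) := by
        rw [setAverage_eq, setAverage_eq, integral_const_mul, smul_eq_mul, smul_eq_mul]; ring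
      rw [e2, avg_scale _ _ hθ, ← hM, Real.sqrt_eq_iff_mul_self_eq (by positivity) (by positivity),
        Real.rpow_mul hθ.le]
      have := Real.mul_self_sqrt hMpos.le
      norm_cast
      linear_combination (-(K ^ (p / 2)) ^ 2 * (θ ^ γ) ^ 2) * this
    have hs' : 0 < K ^ (p / 2) * Real.sqrt M := by
      have := Real.sqrt_pos.mpr hMpos
      positivity
    obtain ⟨θ, a, b, c⟩ := small γ _ (C * (K ^ (p / 2) * Real.sqrt M)) 1 hγ hs' one_pos
    have := hC 0 1 θ one_pos a b.le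
    rw [mul_one, hosc θ a, hosc 1 one_pos, Real.one_rpow] at this
    linarith

lemma exists_sigma (d : ℕ) (hd : 3 ≤ d) (p : ℝ) (h1 : 1 < p) (h2 : p < 2) :
    ∃ σ : ℝ, 0 < σ ∧
      2 * ((σ + 1 / 2) * (p - 2) + σ) + σ * (2 * ((σ + 1 / 2) * (p - 2) + σ) + d) = 0 ∧
      (σ + 1 / 2) * p < 1 := by
  have hd' : (3 : ℝ) ≤ d := by exact_mod_cast hd
  set s := (2 - p) / (2 * p) with hs
  have hp : 0 < p := by linarith
  have hs0 : 0 < s := by apply div_pos <;> linarith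
  have hs1 : s * (2 * p) = 2 - p := by rw [hs]; field_simp
  have hs2 : s < 1 / 2 := by nlinarith
  set g : ℝ → ℝ := fun σ =>
    2 * ((σ + 1 / 2) * (p - 2) + σ) + σ * (2 * ((σ + 1 / 2) * (p - 2) + σ) + d) with hg
  have hc : ContinuousOn g (Set.Icc 0 s) := by
    apply Continuous.continuousOn; rw [hg]; fun_prop
  have e : (s + 1 / 2) * (p - 2) + s = -s := by linarith
  have g0 : g 0 < 0 := by simp only [hg]; linarith
  have g1 : 0 < g s := by
    simp only [hg, e]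
    nlinarith
  obtain ⟨σ, hσ, hσ'⟩ := intermediate_value_Ioo hs0.le hc ⟨g0, g1⟩
  refine ⟨σ, hσ.1, hσ', ?_⟩
  have := hσ.2
  nlinarith

/-- The symmetric form of the harmonic polynomial `2 x_a x_b - (2/d) δ_ab |x|²`. -/
noncomputable def Bq {d : ℕ} (q : Fin d × Fin d) : E d →L[ℝ] E d →L[ℝ] ℝ :=
  (EuclideanSpace.proj q.1 : E d →L[ℝ] ℝ).smulRight (EuclideanSpace.proj q.2) +
  (EuclideanSpace.proj q.2 : E d →L[ℝ] ℝ).smulRight (EuclideanSpace.proj q.1) -
  (if q.1 = q.2 then (2 : ℝ) / d else 0) • innerSL ℝ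

lemma Bq_apply {d : ℕ} (q : Fin d × Fin d) (x y : E d) :
    Bq q x y = x q.1 * y q.2 + x q.2 * y q.1 - (if q.1 = q.2 then (2 : ℝ) / d else 0) * ⟪x, y⟫ := by
  by_cases h : q.1 = q.2 <;> simp [Bq, h]
  exact Or.inl rfl

lemma ee_apply {d : ℕ} (i j : Fin d) : (ee i : E d) j = if j = i then 1 else 0 := by
  simp [ee, Pi.single_apply]

theorem result (d : ℕ) (hd : 3 ≤ d) (p : ℝ) (h1 : 1 < p) (h2 : p < 2) :
    ∃ h : E d → E (d * d), ContDiff ℝ 1 h ∧
      (∀ φ : E d → E (d * d), ContDiff ℝ ∞ φ → HasCompactSupport φ →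
        Integrable (fun x => ⟪A p (grad h x), grad φ x⟫) ∧
        ∫ x, ⟪A p (grad h x), grad φ x⟫ = 0) ∧
      (¬ ∃ g : E d → Mat (d * d) d, ContDiff ℝ 1 g ∧ g =ᵐ[volume] fun x => V p (grad h x)) ∧
      ¬ ∃ C : ℝ, ∀ (c : E d) (r θ : ℝ), 0 < r → 0 < θ → θ ≤ 1 →
        osc (fun x => V p (grad h x)) c (θ * r) ≤ C * θ * osc (fun x => V p (grad h x)) c r := by
  obtain ⟨σ, hσ, hrel, hγ⟩ := exists_sigma d hd p h1 h2
  have hd' : (3 : ℝ) ≤ d := by exact_mod_cast hd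
  have hd0 : (d : ℝ) ≠ 0 := by linarith
  refine main (by omega) (fun a => Bq (finProdFinEquiv.symm a)) ?_ ?_ (4 - 4 / d)
    (2 * d + 2 - 4 / d) ?_ ?_ ?_ ?_ p σ (by linarith) hσ hrel hγ
  · intro a x y
    rw [Bq_apply, Bq_apply, real_inner_comm]; ring
  · intro a
    generalize finProdFinEquiv.symm a = q
    obtain ⟨a, b⟩ := q
    simp only [Bq_apply, real_inner_self_eq_norm_sq, norm_ee, ee_apply]
    by_cases h : a = b
    · subst h
      simp [Finset.sum_sub_distrib, Finset.sum_add_distrib]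
      field_simp
      ring
    · simp [h, Finset.sum_add_distrib, Ne.symm h]
  · have : 4 / (d : ℝ) < 4 := by rw [div_lt_iff₀ (by linarith)]; linarith
    linarith
  · have : 4 / (d : ℝ) < 4 := by rw [div_lt_iff₀ (by linarith)]; linarith
    linarith
  · intro x
    rw [Equiv.sum_comp finProdFinEquiv.symm (fun q => (Bq q x x) ^ 2), Fintype.sum_prod_type]
    have : ∀ a b : Fin d, (Bq (a, b) x x) ^ 2 = 4 * ((x a * x a) * (x b * x b)) +
        if a = b then (4 / d ^ 2 * (‖x‖ ^ 2) ^ 2 - 8 / d * ‖x‖ ^ 2 * (x a * x a)) else 0 := by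
      intro a b
      rw [Bq_apply, real_inner_self_eq_norm_sq]
      split_ifs with h
      · simp only at h
        subst h; ring
      · ring
    simp only [this, Finset.sum_add_distrib, Finset.sum_ite_eq, Finset.mem_univ, if_true,
      ← Finset.mul_sum, ← Finset.sum_mul, sum_sq, Finset.sum_sub_distrib, Finset.sum_const,
      Finset.card_univ, Fintype.card_fin, nsmul_eq_mul]
    field_simp
    ring
  · intro x
    rw [Equiv.sum_comp finProdFinEquiv.symm (fun q => ∑ i, (Bq q x (ee i)) ^ 2),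
      Fintype.sum_prod_type]
    have : ∀ a b : Fin d, ∑ i, (Bq (a, b) x (ee i)) ^ 2 = x a * x a + x b * x b +
        if a = b then (4 / d ^ 2 * ‖x‖ ^ 2 + (2 - 8 / d) * (x a * x a)) else 0 := by
      intro a b
      simp only [Bq_apply, inner_ee, ee_apply]
      by_cases h : a = b
      · subst h
        have : ∀ i, (x a * (if a = i then 1 else 0) + x a * (if a = i then 1 else 0)
            - (2 : ℝ) / d * x i) ^ 2 = (if a = i then (4 - 8 / d) * (x a * x a) else 0)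
            + 4 / d ^ 2 * (x i * x i) := by
          intro i
          split_ifs with h
          · subst h; ring
          · ring
        simp only [if_true, this, Finset.sum_add_distrib, Finset.sum_ite_eq, Finset.mem_univ,
          ← Finset.mul_sum, sum_sq]
        ring
      · have : ∀ i, (x a * (if b = i then 1 else 0) + x b * (if a = i then 1 else 0)
            - (0 : ℝ) * x i) ^ 2 = (if b = i then x a * x a else 0)
            + (if a = i then x b * x b else 0) := by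
          intro i
          split_ifs with h1 h2
          · exact absurd (h2.trans h1.symm) h
          · ring
          · ring
          · ring
        simp only [h, if_false, this, Finset.sum_add_distrib, Finset.sum_ite_eq, Finset.mem_univ,
          if_true, add_zero]
    simp only [this, Finset.sum_add_distrib, Finset.sum_ite_eq, Finset.mem_univ, if_true,
      ← Finset.mul_sum, sum_sq, Finset.sum_const,
      Finset.card_univ, Fintype.card_fin, nsmul_eq_mul]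
    have e5 : ∑ a, x a * (d * x a) = d * ‖x‖ ^ 2 := by
      rw [← sum_sq, Finset.mul_sum]
      exact Finset.sum_congr rfl fun a _ => by ring
    rw [e5]
    field_simp
    ring

end Pool.Agent.Results.MP_815c6c_an.NotC1
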